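import Pool.Agent.W_420c7c_h51.MaD

set_option autoImplicit false
open Polynomial

namespace Pool.Agent.Results.MP_420c7c_nt.BelowFifthRoot

/-- For every sufficiently large composite `n` satisfying condition (C), every prime factor `p` of `n`
satisfies `p ^ 5 < n`, and `n` has at least six distinct prime factors. -/
theorem result : ∃ N : ℕ, ∀ n : ℕ, N ≤ n →
    (∀ r : ℕ, 1 ≤ r → (r : ℝ) ≤ (Real.logb 2 (n : ℝ)) ^ 2 →
      ((X : (ZMod n)[X]) ^ r - 1) ∣ ((1 + X) ^ n - (1 + X ^ n))) →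
    ¬ n.Prime → (∀ p : ℕ, p.Prime → p ∣ n → p ^ 5 < n) ∧ 6 ≤ n.primeFactors.card := by
  obtain ⟨N1, hN1⟩ := Pool.Agent.W_420c7c_h51.main
  obtain ⟨N2, hN2⟩ := Pool.Agent.W_420c7c_h51.main_card
  refine ⟨max (max N1 N2) 1, fun n hn hC hnp => ⟨fun p hp hpn => ?_, ?_⟩⟩
  · have hn1 : N1 ≤ n := le_trans (le_trans (le_max_left _ _) (le_max_left _ _)) hn
    have hn3 : 1 ≤ n := le_trans (le_max_right _ _) hn
    refine hN1 n hn1 hC p hp hpn (lt_of_le_of_ne (Nat.le_of_dvd hn3 hpn) ?_)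
    rintro rfl
    exact hnp hp
  · exact hN2 n (le_trans (le_trans (le_max_right _ _) (le_max_left _ _)) hn) hC hnp

end Pool.Agent.Results.MP_420c7c_nt.BelowFifthRoot
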