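import Pool.Agent.W_420c7c_h29.FinalE

/-!
The congruences `(1+X)^n ≡ 1+X^n` modulo `(n, X^r-1)` for all `r ≤ (log₂ n) ^ c`, `c > 6`, characterise
the primes among the large integers `n`. Any `c > 4` suffices for the integers `n` which have a prime
factor `p` with `p ^ (q (q-1)) ≢ 1 (mod q ^ j)` for some prime power `q ^ j ≤ (log₂ n) ^ 2` with
`q ≤ (log₂ n) ^ δ`.
-/

set_option autoImplicit false
open Polynomial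

namespace Pool.Agent.Results.MP_420c7c_nt.PolylogRange

/-- (a) For every `c > 6` there is `N` such that an integer `n ≥ N` is prime if and only if
`(1+X)^n ≡ 1+X^n` modulo `(n, X^r-1)` for every `r` with `1 ≤ r ≤ (log₂ n)^c`.

(b) For every `ε > 0` there is `N` such that for every integer `n ≥ N` and every prime `p ∣ n` with
`p < n` the congruence fails for some `r` with `1 ≤ r ≤ Z ^ (3+ε)`, `Z = log₂ p * log₂ (n/p)`.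

(c) For every `c > 4` there are `δ > 0` and `N` such that the equivalence in (a) holds for every `n ≥ N`
which has a prime factor `p` such that `p^(q(q-1)) ≢ 1` modulo `q^j` for some prime `q ≤ (log₂ n)^δ` and
some `j` with `q^j ≤ (log₂ n)^2`.

(d) For every `c > 4` the equivalence in (a) holds for all sufficiently large `n` which are `3` or `5`
modulo `8` or have a prime factor which is `3` or `5` modulo `8`.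

(e) For every `ε > 0` there are `δ > 0` and `N` such that for `n ≥ N` and `p`, `Z` as in (b) and every
prime `q ≤ Z^δ` and every `j` such that `p^(q(q-1)) ≢ 1` or `(n/p)^(q(q-1)) ≢ 1` modulo `q^j` the
congruence fails for some `r` with `1 ≤ r ≤ Z ^ (1+ε) * max (Z, q^j)`. -/
theorem result :
    (∀ c : ℝ, 6 < c → ∃ N : ℕ, ∀ n : ℕ, N ≤ n →
      (n.Prime ↔ ∀ r : ℕ, 1 ≤ r → (r : ℝ) ≤ (Real.logb 2 n) ^ c →
        ((X : (ZMod n)[X]) ^ r - 1) ∣ ((1 + X) ^ n - (1 + X ^ n)))) ∧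
    (∀ ε : ℝ, 0 < ε → ∃ N : ℕ, ∀ n : ℕ, N ≤ n → ∀ p : ℕ, p.Prime → p ∣ n → p < n →
      ∃ r : ℕ, 1 ≤ r ∧ (r : ℝ) ≤ (Real.logb 2 p * Real.logb 2 ((n : ℝ) / p)) ^ (3 + ε) ∧
        ¬ ((X : (ZMod n)[X]) ^ r - 1) ∣ ((1 + X) ^ n - (1 + X ^ n))) ∧
    (∀ c : ℝ, 4 < c → ∃ δ : ℝ, 0 < δ ∧ ∃ N : ℕ, ∀ n : ℕ, N ≤ n →
      ∀ p q j : ℕ, p.Prime → p ∣ n → q.Prime → (q : ℝ) ≤ (Real.logb 2 n) ^ δ →
        (q : ℝ) ^ j ≤ (Real.logb 2 n) ^ 2 → ¬ p ^ (q * (q - 1)) ≡ 1 [MOD q ^ j] →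
      (n.Prime ↔ ∀ r : ℕ, 1 ≤ r → (r : ℝ) ≤ (Real.logb 2 n) ^ c →
        ((X : (ZMod n)[X]) ^ r - 1) ∣ ((1 + X) ^ n - (1 + X ^ n)))) ∧
    (∀ c : ℝ, 4 < c → ∃ N : ℕ, ∀ n : ℕ, N ≤ n →
      (n % 8 = 3 ∨ n % 8 = 5 ∨ ∃ p : ℕ, p.Prime ∧ p ∣ n ∧ (p % 8 = 3 ∨ p % 8 = 5)) →
      (n.Prime ↔ ∀ r : ℕ, 1 ≤ r → (r : ℝ) ≤ (Real.logb 2 n) ^ c →
        ((X : (ZMod n)[X]) ^ r - 1) ∣ ((1 + X) ^ n - (1 + X ^ n)))) ∧
    ∀ ε : ℝ, 0 < ε → ∃ δ : ℝ, 0 < δ ∧ ∃ N : ℕ, ∀ n : ℕ, N ≤ n →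
      ∀ p : ℕ, p.Prime → p ∣ n → p < n → ∀ q j : ℕ, q.Prime →
        (q : ℝ) ≤ (Real.logb 2 p * Real.logb 2 ((n : ℝ) / p)) ^ δ →
        (¬ p ^ (q * (q - 1)) ≡ 1 [MOD q ^ j] ∨ ¬ (n / p) ^ (q * (q - 1)) ≡ 1 [MOD q ^ j]) →
      ∃ r : ℕ, 1 ≤ r ∧ (r : ℝ) ≤ (Real.logb 2 p * Real.logb 2 ((n : ℝ) / p)) ^ (1 + ε) *
          max (Real.logb 2 p * Real.logb 2 ((n : ℝ) / p)) ((q : ℝ) ^ j) ∧
        ¬ ((X : (ZMod n)[X]) ^ r - 1) ∣ ((1 + X) ^ n - (1 + X ^ n)) :=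
  ⟨W_420c7c_h29.main', W_420c7c_h29.main, W_420c7c_h29.mainD', W_420c7c_h29.mainD8,
    W_420c7c_h29.mainD⟩

end Pool.Agent.Results.MP_420c7c_nt.PolylogRange
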