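import Pool.Agent.W_420c7c_h24.G

/-!
The criterion of the question (`n` is prime if and only if `(1+X)^n ≡ 1+X^n` modulo `(n, X^r-1)` for
all `r ≤ (log₂ n)²`) holds for all `n ≤ x` with at most `x^(1/2+o(1))` exceptions, and so does the
criterion which only uses the moduli `X^(q²)-1` with `q ≤ log₂ n` prime.
-/

set_option autoImplicit false
open Polynomial

namespace Pool.Agent.Results.MP_420c7c_nt.SparseExceptions

/-- There are `C` and `x₀` such that for every `x ≥ x₀` there is a set `E` of at most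
`√x exp (C √(log x) log log x)` integers such that every integer `n ∉ E` with `2 ≤ n ≤ x` satisfies:

* `n` is prime if and only if `(1+X)^n ≡ 1+X^n` modulo `(n, X^r-1)` for all `1 ≤ r ≤ (log₂ n)²`;
* `n` is prime if and only if `(1+X)^n ≡ 1+X^n` modulo `(n, X^(q²)-1)` for all primes
  `q ≤ log₂ n`. -/
theorem result :
    ∃ C : ℝ, ∃ x₀ : ℕ, ∀ x : ℕ, x₀ ≤ x → ∃ E : Finset ℕ,
      (E.card : ℝ) ≤ √(x : ℝ) * Real.exp (C * (√(Real.log x) * Real.log (Real.log x))) ∧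
      ∀ n : ℕ, 2 ≤ n → n ≤ x → n ∉ E →
        (n.Prime ↔ ∀ r : ℕ, 1 ≤ r → (r : ℝ) ≤ (Real.logb 2 n) ^ 2 →
            ((X : (ZMod n)[X]) ^ r - 1) ∣ ((1 + X) ^ n - (1 + X ^ n))) ∧
        (n.Prime ↔ ∀ q : ℕ, q.Prime → (q : ℝ) ≤ Real.logb 2 n →
            ((X : (ZMod n)[X]) ^ (q ^ 2) - 1) ∣ ((1 + X) ^ n - (1 + X ^ n))) := by
  classical
  obtain ⟨C, x₀, h⟩ := W_420c7c_h24.main_S
  refine ⟨C, x₀, fun x hx => ⟨(Finset.Icc 2 x).filter fun n => ¬ n.Prime ∧ W_420c7c_h24.CS n,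
    h x hx, fun n hn2 hnx hnE => ?_⟩⟩
  have key : W_420c7c_h24.CS n → n.Prime := by
    intro hc
    by_contra hp
    exact hnE (Finset.mem_filter.2 ⟨Finset.mem_Icc.2 ⟨hn2, hnx⟩, hp, hc⟩)
  exact ⟨⟨fun hp r _ _ => W_420c7c_h24.cong_of_prime hp r,
      fun hc => key (W_420c7c_h24.CC_CS hc)⟩,
    ⟨fun hp q _ _ => W_420c7c_h24.cong_of_prime hp (q ^ 2), fun hc => key hc⟩⟩

end Pool.Agent.Results.MP_420c7c_nt.SparseExceptions
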